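import Mathlib

set_option autoImplicit false

open scoped TensorProduct

namespace Pool.Agent.Results.MP_222fdd_al.HallQuotient

section Definitions

variable (G : Type) [Group G]

/-- The space of complex class functions on `G`. -/
def ZA : Submodule ℂ (G → ℂ) where
  carrier := {u | ∀ g h, u (h * g * h⁻¹) = u g}
  add_mem' := by
    intro u v hu hv g h
    simp only [Pi.add_apply, hu g h, hv g h]
  zero_mem' := by
    intro g h
    rfl
  smul_mem' := by
    intro c u hu g h
    simp only [Pi.smul_apply, hu g h]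

/-- The set of irreducible complex characters of `G`. -/
def Irr : Set (G → ℂ) :=
  {χ | ∃ (V : Type) (_ : AddCommGroup V) (_ : Module ℂ V) (_ : FiniteDimensional ℂ V)
    (ρ : Representation ℂ G V), ρ.IsIrreducible ∧ χ = ρ.character}

/-- `c` is an expansion `u = ∑ c_χ χ` of `u` in irreducible characters. -/
def IsExpansion (u : G → ℂ) (c : (G → ℂ) →₀ ℂ) : Prop :=
  (∀ χ ∈ c.support, χ ∈ Irr G) ∧ u = c.sum fun χ a => a • χ

/-- The norm of the central Fourier algebra: `∑ χ(1) |c_χ|` for the expansion `u = ∑ c_χ χ`. -/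
noncomputable def normA (u : G → ℂ) : ℝ :=
  sInf {r | ∃ c, IsExpansion G u c ∧ r = c.sum fun χ a => ‖χ 1‖ * ‖a‖}

/-- The Banach space projective tensor norm on `ZA(G) ⊗ ZA(G)`. -/
noncomputable def projNorm (z : ZA G ⊗[ℂ] ZA G) : ℝ :=
  sInf {r | ∃ (n : ℕ) (x y : Fin n → ZA G), z = ∑ i, x i ⊗ₜ[ℂ] y i ∧
    r = ∑ i, normA G (x i) * normA G (y i)}

open Classical in
/-- The indicator function of a conjugacy class. -/
noncomputable def ind (C : ConjClasses G) : ZA G :=
  ⟨fun g => if ConjClasses.mk g = C then 1 else 0, by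
    intro g h
    have : ConjClasses.mk (h * g * h⁻¹) = ConjClasses.mk g :=
      ConjClasses.mk_eq_mk_iff_isConj.mpr (isConj_iff.mpr ⟨h, rfl⟩).symm
    simp only [this]⟩

/-- The amenability constant of `ZA(G)`: the projective norm of the diagonal `∑ 1_C ⊗ 1_C`. -/
noncomputable def AMZA : ℝ :=
  projNorm G (∑ᶠ C : ConjClasses G, ind G C ⊗ₜ[ℂ] ind G C)

end Definitions

section Characters

variable {G : Type} [Group G]

/-- Every character of a finite group is a finite sum of irreducible characters, with degrees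
adding up. -/
lemma character_decomp [Finite G] : ∀ (n : ℕ) (V : Type) [AddCommGroup V] [Module ℂ V]
    [FiniteDimensional ℂ V] (ρ : Representation ℂ G V), Module.finrank ℂ V = n →
    ∃ l : List (G → ℂ), (∀ χ ∈ l, χ ∈ Irr G) ∧ ρ.character = l.sum ∧
      (l.map (fun χ => ‖χ 1‖)).sum = n := by
  intro n
  induction n using Nat.strong_induction_on with
  | _ n ih =>
  intro V _ _ _ ρ hn
  rcases Nat.eq_zero_or_pos n with h0 | hpos
  · refine ⟨[], by simp, ?_, by simp [h0]⟩
    have : Subsingleton V := Module.finrank_zero_iff.mp (hn.trans h0)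
    ext g
    have : ρ g = 0 := Subsingleton.elim _ _
    simp [Representation.character, this]
  by_cases hirr : ρ.IsIrreducible
  · refine ⟨[ρ.character], ?_, by simp, ?_⟩
    · intro χ hχ
      rw [List.mem_singleton] at hχ
      exact ⟨V, _, _, inferInstance, ρ, hirr, hχ⟩
    · simp [Representation.char_one, hn]
  -- reducible case
  have hnt : Nontrivial V := (Module.finrank_pos_iff (R := ℂ)).mp (by omega)
  have hbt : (⊥ : Subrepresentation ρ) ≠ ⊤ := by
    intro h
    have h1 : (⊥ : Submodule ℂ V) = ⊤ := congrArg Subrepresentation.toSubmodule h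
    exact bot_ne_top h1
  have hex : ∃ W : Subrepresentation ρ, W ≠ ⊥ ∧ W ≠ ⊤ := by
    by_contra hcon
    push Not at hcon
    apply hirr
    have : Nontrivial (Subrepresentation ρ) := ⟨⟨⊥, ⊤, hbt⟩⟩
    exact ⟨fun a => (em (a = ⊥)).imp id (fun h => hcon a h)⟩
  obtain ⟨W, hW0, hW1⟩ := hex
  have : NeZero (Nat.card G : ℂ) := ⟨by simp [Nat.card_pos.ne']⟩
  obtain ⟨W', hWW'⟩ := exists_isCompl W
  have hW'0 : W' ≠ ⊥ := by
    rintro rfl
    exact hW1 (eq_top_of_isCompl_bot hWW')
  have hc : IsCompl W.toSubmodule W'.toSubmodule := by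
    refine ⟨disjoint_iff.mpr ?_, codisjoint_iff.mpr ?_⟩
    · have := congrArg Subrepresentation.toSubmodule (disjoint_iff.mp hWW'.disjoint)
      exact this
    · have := congrArg Subrepresentation.toSubmodule (codisjoint_iff.mp hWW'.codisjoint)
      exact this
  have hsub0 : W.toSubmodule ≠ ⊥ := fun h => hW0 (Subrepresentation.toSubmodule_injective h)
  have hsub'0 : W'.toSubmodule ≠ ⊥ := fun h => hW'0 (Subrepresentation.toSubmodule_injective h)
  have hadd := Submodule.finrank_add_eq_of_isCompl hc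
  have hp1 := Submodule.one_le_finrank_iff.mpr hsub0
  have hp2 := Submodule.one_le_finrank_iff.mpr hsub'0
  obtain ⟨l1, hl1, hc1, hd1⟩ := ih (Module.finrank ℂ W.toSubmodule) (by omega) W.toSubmodule
    W.toRepresentation rfl
  obtain ⟨l2, hl2, hc2, hd2⟩ := ih (Module.finrank ℂ W'.toSubmodule) (by omega) W'.toSubmodule
    W'.toRepresentation rfl
  refine ⟨l1 ++ l2, ?_, ?_, ?_⟩
  · intro χ hχ
    rcases List.mem_append.mp hχ with h | h
    · exact hl1 χ h
    · exact hl2 χ h
  · rw [List.sum_append, ← hc1, ← hc2]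
    ext g
    let A : Bool → Submodule ℂ V := fun b => bif b then W.toSubmodule else W'.toSubmodule
    have hint : DirectSum.IsInternal A := by
      rw [DirectSum.isInternal_submodule_iff_isCompl A (i := true) (j := false) (by simp)
        (by ext b; cases b <;> simp)]
      exact hc
    have hmaps : ∀ b, Set.MapsTo (ρ g) (A b) (A b) := by
      intro b
      cases b
      · exact fun v hv => W'.apply_mem_toSubmodule g hv
      · exact fun v hv => W.apply_mem_toSubmodule g hv
    have htr := LinearMap.trace_eq_sum_trace_restrict hint hmaps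
    rw [Fintype.sum_bool] at htr
    exact htr
  · rw [List.map_append, List.sum_append, hd1, hd2, ← hn, ← hadd]
    push_cast
    rfl

/-- The regular representation on functions. -/
def reg (G : Type) [Group G] : Representation ℂ G (G → ℂ) where
  toFun g := LinearMap.funLeft ℂ ℂ (fun x => g⁻¹ * x)
  map_one' := by
    ext v x
    simp [LinearMap.funLeft_apply]
  map_mul' g h := by
    ext v x
    simp [LinearMap.funLeft_apply, mul_assoc]

lemma reg_character [Finite G] (g : G) [Decidable (g = 1)] :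
    (reg G).character g = if g = 1 then (Nat.card G : ℂ) else 0 := by
  classical
  have := Fintype.ofFinite G
  unfold Representation.character
  rw [LinearMap.trace_eq_matrix_trace ℂ (Pi.basisFun ℂ G), Matrix.trace]
  simp only [Matrix.diag_apply, LinearMap.toMatrix_apply, Pi.basisFun_apply, Pi.basisFun_repr]
  have : ∀ x : G, (reg G g) (Pi.single x (1 : ℂ)) x = if g = 1 then 1 else 0 := by
    intro x
    change (Pi.single x (1 : ℂ) : G → ℂ) (g⁻¹ * x) = _
    rw [Pi.single_apply]
    simp
  simp only [this]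
  split_ifs <;> simp

/-- Class functions act as scalars on irreducible representations. -/
lemma schur_scalar [Fintype G] (f : G → ℂ) (hf : f ∈ ZA G) {V : Type} [AddCommGroup V]
    [Module ℂ V] [FiniteDimensional ℂ V] (ρ : Representation ℂ G V) (hρ : ρ.IsIrreducible) :
    ∃ s : ℂ, ∀ h, ∑ g : G, f g⁻¹ * ρ.character (g * h) = s * ρ.character h := by
  let T : V →ₗ[ℂ] V := ∑ g : G, f g⁻¹ • ρ g
  have hT : ∀ h : G, T ∘ₗ ρ h = ρ h ∘ₗ T := by
    intro h
    ext v
    simp only [T, LinearMap.comp_apply, LinearMap.sum_apply, LinearMap.smul_apply, map_sum,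
      map_smul]
    rw [← (MulAut.conj h).toEquiv.sum_comp]
    refine Finset.sum_congr rfl fun g _ => ?_
    have h1 : (MulAut.conj h).toEquiv g = h * g * h⁻¹ := rfl
    rw [h1]
    have h2 : f (h * g * h⁻¹)⁻¹ = f g⁻¹ := by
      have := hf g⁻¹ h
      rw [← this]
      congr 1
      group
    rw [h2]
    congr 1
    rw [← Module.End.mul_apply, ← Module.End.mul_apply, ← map_mul, ← map_mul]
    congr 2
    group
  let I : Representation.IntertwiningMap ρ ρ := ⟨T, hT⟩
  obtain ⟨s, hs⟩ :=
    (Representation.IsIrreducible.algebraMap_intertwiningMap_bijective_of_isAlgClosed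
      (ρ := ρ)).2 I
  have hTs : T = s • LinearMap.id := by
    have := congrArg Representation.IntertwiningMap.toLinearMap hs
    exact this.symm
  refine ⟨s, fun h => ?_⟩
  have h3 : ∑ g : G, f g⁻¹ * ρ.character (g * h) = LinearMap.trace ℂ V (T ∘ₗ ρ h) := by
    have h4 : T ∘ₗ ρ h = ∑ g : G, f g⁻¹ • ρ (g * h) := by
      ext v
      simp [T]
    rw [h4, map_sum]
    refine Finset.sum_congr rfl fun g _ => ?_
    rw [map_smul, smul_eq_mul]
    rfl
  rw [h3, hTs, LinearMap.smul_comp, map_smul, smul_eq_mul]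
  rfl

/-- Irreducible characters span the class functions. -/
lemma ZA_le_span [Finite G] : ZA G ≤ Submodule.span ℂ (Irr G) := by
  classical
  intro f hf
  have := Fintype.ofFinite G
  obtain ⟨l, hl, hc, -⟩ := character_decomp (G := G) _ (G → ℂ) (reg G) rfl
  have hcard : (Nat.card G : ℂ) ≠ 0 := by simp
  have key : ∀ l' : List (G → ℂ), (∀ χ ∈ l', χ ∈ Irr G) →
      (fun h => ∑ g : G, f g⁻¹ * l'.sum (g * h)) ∈ Submodule.span ℂ (Irr G) := by
    intro l'
    induction l' with
    | nil =>
      intro _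
      have : (fun h => ∑ g : G, f g⁻¹ * (List.sum ([] : List (G → ℂ))) (g * h)) = 0 := by
        ext h
        simp
      rw [this]
      exact Submodule.zero_mem _
    | cons χ l' ih =>
      intro h
      have h1 : (fun h => ∑ g : G, f g⁻¹ * (List.sum (χ :: l')) (g * h)) =
          (fun h => ∑ g : G, f g⁻¹ * χ (g * h)) + fun h => ∑ g : G, f g⁻¹ * l'.sum (g * h) := by
        ext h
        simp [List.sum_cons, mul_add, Finset.sum_add_distrib]
      rw [h1]
      refine Submodule.add_mem _ ?_ (ih fun χ' hχ' => h χ' (List.mem_cons_of_mem _ hχ'))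
      obtain ⟨V, _, _, _, ρ, hρ, rfl⟩ := h χ List.mem_cons_self
      obtain ⟨s, hs⟩ := schur_scalar f hf ρ hρ
      have h2 : (fun h => ∑ g : G, f g⁻¹ * ρ.character (g * h)) = s • ρ.character := by
        ext h
        simp [hs h]
      rw [h2]
      exact Submodule.smul_mem _ _ (Submodule.subset_span (h _ List.mem_cons_self))
  have h1 := key l hl
  have h2 : (fun h => ∑ g : G, f g⁻¹ * l.sum (g * h)) = (Nat.card G : ℂ) • f := by
    ext h
    rw [← hc]
    simp only [reg_character]
    rw [Finset.sum_eq_single h⁻¹]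
    · simp [mul_comm]
    · intro g _ hg
      rw [if_neg, mul_zero]
      intro h'
      exact hg (eq_inv_of_mul_eq_one_left h')
    · simp
  rw [h2] at h1
  have h3 := Submodule.smul_mem _ (Nat.card G : ℂ)⁻¹ h1
  rwa [smul_smul, inv_mul_cancel₀ hcard, one_smul] at h3

lemma exists_expansion [Finite G] {u : G → ℂ} (hu : u ∈ ZA G) : ∃ c, IsExpansion G u c := by
  have h := ZA_le_span hu
  rw [Finsupp.mem_span_iff_linearCombination] at h
  obtain ⟨c, hc⟩ := h
  refine ⟨c.embDomain (Function.Embedding.subtype _), ?_, ?_⟩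
  · intro χ hχ
    rw [Finsupp.support_embDomain, Finset.mem_map] at hχ
    obtain ⟨χ', _, rfl⟩ := hχ
    exact χ'.2
  · rw [Finsupp.sum_embDomain, ← hc]
    rfl

/-! ### Properties of the norm -/

lemma normA_set_bdd (u : G → ℂ) :
    BddBelow {r | ∃ c, IsExpansion G u c ∧ r = c.sum fun χ a => ‖χ 1‖ * ‖a‖} := by
  refine ⟨0, ?_⟩
  rintro r ⟨c, _, rfl⟩
  exact Finset.sum_nonneg fun χ _ => by positivity

lemma normA_nonneg (u : G → ℂ) : 0 ≤ normA G u := by
  refine Real.sInf_nonneg ?_
  rintro r ⟨c, _, rfl⟩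
  exact Finset.sum_nonneg fun χ _ => by positivity

lemma normA_le {u : G → ℂ} {c : (G → ℂ) →₀ ℂ} (h : IsExpansion G u c) :
    normA G u ≤ c.sum fun χ a => ‖χ 1‖ * ‖a‖ :=
  csInf_le (normA_set_bdd u) ⟨c, h, rfl⟩

/-- `Good u r`: `u` has an expansion of value at most `r`. -/
def Good (u : G → ℂ) (r : ℝ) : Prop :=
  ∃ c, IsExpansion G u c ∧ (c.sum fun χ a => ‖χ 1‖ * ‖a‖) ≤ r

lemma Good.add {u v : G → ℂ} {r s : ℝ} (hu : Good u r) (hv : Good v s) :
    Good (u + v) (r + s) := by
  classical
  obtain ⟨c, ⟨hc1, hc2⟩, hc3⟩ := hu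
  obtain ⟨d, ⟨hd1, hd2⟩, hd3⟩ := hv
  refine ⟨c + d, ⟨?_, ?_⟩, ?_⟩
  · intro χ hχ
    rcases Finset.mem_union.mp (Finsupp.support_add hχ) with h | h
    · exact hc1 χ h
    · exact hd1 χ h
  · rw [Finsupp.sum_add_index' (by simp) (by intros; rw [add_smul]), ← hc2, ← hd2]
  · have h1 : ((c + d).sum fun χ a => ‖χ 1‖ * ‖a‖) =
        ∑ χ ∈ c.support ∪ d.support, ‖χ 1‖ * ‖(c + d) χ‖ :=
      Finsupp.sum_of_support_subset _ Finsupp.support_add _ (by simp)
    have h2 : (c.sum fun χ a => ‖χ 1‖ * ‖a‖) =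
        ∑ χ ∈ c.support ∪ d.support, ‖χ 1‖ * ‖c χ‖ :=
      Finsupp.sum_of_support_subset _ Finset.subset_union_left _ (by simp)
    have h3 : (d.sum fun χ a => ‖χ 1‖ * ‖a‖) =
        ∑ χ ∈ c.support ∪ d.support, ‖χ 1‖ * ‖d χ‖ :=
      Finsupp.sum_of_support_subset _ Finset.subset_union_right _ (by simp)
    refine le_trans ?_ (add_le_add hc3 hd3)
    rw [h1, h2, h3, ← Finset.sum_add_distrib]
    refine Finset.sum_le_sum fun χ _ => ?_
    rw [← mul_add]
    refine mul_le_mul_of_nonneg_left ?_ (norm_nonneg _)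
    rw [Finsupp.add_apply]
    exact norm_add_le _ _

lemma Good.smul {u : G → ℂ} {r : ℝ} (a : ℂ) (hu : Good u r) : Good (a • u) (‖a‖ * r) := by
  obtain ⟨c, ⟨hc1, hc2⟩, hc3⟩ := hu
  refine ⟨a • c, ⟨?_, ?_⟩, ?_⟩
  · intro χ hχ
    exact hc1 χ (Finsupp.support_smul hχ)
  · rw [Finsupp.sum_smul_index' (by simp), hc2, Finsupp.smul_sum]
    simp [smul_smul]
  · rw [Finsupp.sum_smul_index' (by simp)]
    refine le_trans (le_of_eq ?_) (mul_le_mul_of_nonneg_left hc3 (norm_nonneg a))
    rw [Finsupp.mul_sum]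
    refine Finset.sum_congr rfl fun χ _ => ?_
    simp only [smul_eq_mul, norm_mul]
    ring

lemma Good.zero : Good (0 : G → ℂ) 0 :=
  ⟨0, ⟨by simp, by simp⟩, by simp⟩

lemma Good.irr {χ : G → ℂ} (hχ : χ ∈ Irr G) : Good χ ‖χ 1‖ := by
  refine ⟨Finsupp.single χ 1, ⟨?_, ?_⟩, ?_⟩
  · intro χ' h
    have := Finsupp.support_single_subset h
    rw [Finset.mem_singleton] at this
    rw [this]
    exact hχ
  · rw [Finsupp.sum_single_index (by simp), one_smul]
  · rw [Finsupp.sum_single_index (by simp)]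
    simp

lemma Good.list {l : List (G → ℂ)} (hl : ∀ χ ∈ l, χ ∈ Irr G) :
    Good l.sum (l.map (fun χ => ‖χ 1‖)).sum := by
  induction l with
  | nil => simpa using Good.zero
  | cons χ l ih =>
    rw [List.sum_cons, List.map_cons, List.sum_cons]
    exact (Good.irr (hl χ List.mem_cons_self)).add
      (ih fun χ' h => hl χ' (List.mem_cons_of_mem _ h))

lemma Good.finset_sum {ι : Type*} (s : Finset ι) (u : ι → G → ℂ) (r : ι → ℝ)
    (h : ∀ i ∈ s, Good (u i) (r i)) : Good (∑ i ∈ s, u i) (∑ i ∈ s, r i) := by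
  classical
  induction s using Finset.induction_on with
  | empty => simpa using Good.zero
  | insert i s hi ih =>
    rw [Finset.sum_insert hi, Finset.sum_insert hi]
    exact (h i (Finset.mem_insert_self _ _)).add
      (ih fun j hj => h j (Finset.mem_insert_of_mem hj))

/-- Pulling back along a homomorphism does not increase the norm. -/
lemma normA_comp_le [Finite G] {Q : Type} [Group Q] [Finite Q] (s : Q →* G) {u : G → ℂ}
    (hu : u ∈ ZA G) : normA Q (u ∘ s) ≤ normA G u := by
  refine le_csInf ?_ ?_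
  · obtain ⟨c, hc⟩ := exists_expansion hu
    exact ⟨_, c, hc, rfl⟩
  · rintro r ⟨c, ⟨hc1, hc2⟩, rfl⟩
    have h1 : Good (u ∘ s) (c.sum fun χ a => ‖a‖ * ‖χ 1‖) := by
      have h2 : u ∘ s = ∑ χ ∈ c.support, c χ • (χ ∘ s) := by
        rw [hc2]
        ext q
        simp [Finsupp.sum, Finset.sum_apply]
      rw [h2]
      refine Good.finset_sum _ _ _ fun χ hχ => Good.smul _ ?_
      obtain ⟨V, _, _, _, ρ, hρ, rfl⟩ := hc1 χ hχ
      obtain ⟨l, hl, hl1, hl2⟩ := character_decomp (G := Q) _ V (ρ.comp s) rfl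
      have h3 : ρ.character ∘ s = l.sum := by
        rw [← hl1]
        rfl
      rw [h3]
      have h4 : ‖ρ.character 1‖ = (l.map (fun χ => ‖χ 1‖)).sum := by
        rw [hl2, Representation.char_one]
        simp
      rw [h4]
      exact Good.list hl
    obtain ⟨d, hd1, hd2⟩ := h1
    refine (normA_le hd1).trans (hd2.trans (le_of_eq ?_))
    exact Finset.sum_congr rfl fun χ _ => mul_comm _ _

/-- Pull back of class functions along a homomorphism. -/
def pull {Q : Type} [Group Q] (s : Q →* G) : ZA G →ₗ[ℂ] ZA Q where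
  toFun u := ⟨fun q => u.1 (s q), by
    intro g h
    have := u.2 (s g) (s h)
    simp only [map_mul, map_inv]
    exact this⟩
  map_add' u v := rfl
  map_smul' c u := rfl

lemma projNorm_set_bdd (z : ZA G ⊗[ℂ] ZA G) :
    BddBelow {r | ∃ (n : ℕ) (x y : Fin n → ZA G), z = ∑ i, x i ⊗ₜ[ℂ] y i ∧
      r = ∑ i, normA G (x i) * normA G (y i)} := by
  refine ⟨0, ?_⟩
  rintro r ⟨n, x, y, _, rfl⟩
  exact Finset.sum_nonneg fun i _ => mul_nonneg (normA_nonneg _) (normA_nonneg _)

lemma exists_rep (z : ZA G ⊗[ℂ] ZA G) :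
    ∃ (n : ℕ) (x y : Fin n → ZA G), z = ∑ i, x i ⊗ₜ[ℂ] y i := by
  induction z using TensorProduct.induction_on with
  | zero => exact ⟨0, Fin.elim0, Fin.elim0, by simp⟩
  | tmul a b => exact ⟨1, fun _ => a, fun _ => b, by simp⟩
  | add z w hz hw =>
    obtain ⟨n, x, y, hz⟩ := hz
    obtain ⟨m, x', y', hw⟩ := hw
    refine ⟨n + m, Fin.append x x', Fin.append y y', ?_⟩
    rw [Fin.sum_univ_add]
    simp [hz, hw]

lemma projNorm_pull_le [Finite G] {Q : Type} [Group Q] [Finite Q] (s : Q →* G)
    (z : ZA G ⊗[ℂ] ZA G) :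
    projNorm Q (TensorProduct.map (pull s) (pull s) z) ≤ projNorm G z := by
  refine le_csInf ?_ ?_
  · obtain ⟨n, x, y, hz⟩ := exists_rep z
    exact ⟨_, n, x, y, hz, rfl⟩
  · rintro r ⟨n, x, y, hz, rfl⟩
    have h1 : TensorProduct.map (pull s) (pull s) z = ∑ i, (pull s (x i)) ⊗ₜ[ℂ] (pull s (y i)) := by
      rw [hz]
      simp
    refine (csInf_le (projNorm_set_bdd _) ⟨n, _, _, h1, rfl⟩).trans ?_
    refine Finset.sum_le_sum fun i _ => ?_
    exact mul_le_mul (normA_comp_le s (x i).2) (normA_comp_le s (y i).2) (normA_nonneg _)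
      (normA_nonneg _)

lemma ind_pos {C : ConjClasses G} {g : G} (h : ConjClasses.mk g = C) :
    (ind G C : G → ℂ) g = 1 := if_pos h

lemma ind_neg {C : ConjClasses G} {g : G} (h : ConjClasses.mk g ≠ C) :
    (ind G C : G → ℂ) g = 0 := if_neg h

lemma pull_apply {Q : Type} [Group Q] (s : Q →* G) (u : ZA G) (q : Q) :
    (pull s u : Q → ℂ) q = (u : G → ℂ) (s q) := rfl

/-- If `s` is a section of a homomorphism `p`, pulling back sends the diagonal to the diagonal. -/
lemma pull_diag [Finite G] {Q : Type} [Group Q] [Finite Q] (s : Q →* G) (p : G →* Q)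
    (hps : ∀ q, p (s q) = q) :
    TensorProduct.map (pull s) (pull s) (∑ᶠ C : ConjClasses G, ind G C ⊗ₜ[ℂ] ind G C) =
      ∑ᶠ D : ConjClasses Q, ind Q D ⊗ₜ[ℂ] ind Q D := by
  classical
  have := Fintype.ofFinite G
  have := Fintype.ofFinite Q
  rw [finsum_eq_sum_of_fintype, finsum_eq_sum_of_fintype, map_sum]
  simp only [TensorProduct.map_tmul]
  -- the map on classes induced by `s`
  let f : ConjClasses Q → ConjClasses G := ConjClasses.map s
  have hf : Function.Injective f := by
    intro C D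
    refine Quotient.inductionOn₂ C D fun a b h => ?_
    have h1 : IsConj (s a) (s b) := ConjClasses.mk_eq_mk_iff_isConj.mp h
    have h2 := p.map_isConj h1
    rw [hps, hps] at h2
    exact ConjClasses.mk_eq_mk_iff_isConj.mpr h2
  have h1 : ∀ D, pull s (ind G (f D)) = ind Q D := by
    intro D
    ext q
    have hmk : ConjClasses.mk (s q) = f (ConjClasses.mk q) := rfl
    rw [pull_apply]
    by_cases hq : ConjClasses.mk q = D
    · rw [ind_pos hq, ind_pos (by rw [hmk, hq])]
    · rw [ind_neg hq, ind_neg (by rw [hmk]; exact fun h => hq (hf h))]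
  have h2 : ∀ C, C ∉ Set.range f → pull s (ind G C) = 0 := by
    intro C hC
    ext q
    rw [pull_apply, ind_neg (fun h => hC ⟨ConjClasses.mk q, h⟩)]
    rfl
  rw [← Finset.sum_subset (Finset.subset_univ (Finset.univ.image f))]
  · rw [Finset.sum_image (fun a _ b _ h => hf h)]
    exact Finset.sum_congr rfl fun D _ => by rw [h1]
  · intro C _ hC
    rw [h2 C, TensorProduct.zero_tmul]
    rintro ⟨D, rfl⟩
    exact hC (Finset.mem_image_of_mem f (Finset.mem_univ D))

/-- A retract has a smaller amenability constant. -/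
lemma AMZA_retract [Finite G] {Q : Type} [Group Q] [Finite Q] (s : Q →* G) (p : G →* Q)
    (hps : ∀ q, p (s q) = q) : AMZA Q ≤ AMZA G := by
  unfold AMZA
  rw [← pull_diag s p hps]
  exact projNorm_pull_le s _

end Characters

/-- For every finite group `G` and every normal Hall subgroup `N` of `G`, the amenability constant
of the central Fourier algebra satisfies `AMZA(G/N) ≤ AMZA(G)`. -/
theorem result (G : Type) [Group G] [Finite G] (N : Subgroup G) [N.Normal]
    (hN : (Nat.card N).Coprime N.index) : AMZA (G ⧸ N) ≤ AMZA G := by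
  obtain ⟨H, hH⟩ := Subgroup.exists_right_complement'_of_coprime hN
  let e := hH.symm.QuotientMulEquiv
  refine AMZA_retract (H.subtype.comp e.toMonoidHom) (QuotientGroup.mk' N) ?_
  intro q
  exact e.symm_apply_apply q

end Pool.Agent.Results.MP_222fdd_al.HallQuotient
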